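import Mathlib
import Pool.Agent.X200.CoSober

/-!
MP_8d849c_gt, Q1: there is a family of co-sober spaces whose product is not co-sober.
-/

set_option autoImplicit false

namespace Pool.Agent.Results.MP_8d849c_gt.ProductNotCoSober

open Set Topology

/-- `G` is a nonempty compact saturated set, i.e. a member of `K(X)`. -/
def KSat {X : Type*} [TopologicalSpace X] (G : Set X) : Prop :=
  G.Nonempty ∧ IsCompact G ∧ ∃ S : Set (Set X), (∀ U ∈ S, IsOpen U) ∧ G = ⋂₀ S

/-- k-irreducible sets. -/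
def KIrr {X : Type*} [TopologicalSpace X] (G : Set X) : Prop :=
  KSat G ∧ ∀ K₁ K₂ : Set X, KSat K₁ → KSat K₂ → G = K₁ ∪ K₂ → G = K₁ ∨ G = K₂

/-- The upper set of a point in the specialization order (`x ≤ y` iff `x ∈ cl {y}`). -/
def up {X : Type*} [TopologicalSpace X] (x : X) : Set X := {y | x ∈ closure {y}}

/-- Co-sober spaces. -/
def CoSober (X : Type*) [TopologicalSpace X] : Prop :=
  T0Space X ∧ ∀ G : Set X, KIrr G → ∃ k : X, G = up k

theorem result : ∃ (ι : Type) (X : ι → Type) (_ : ∀ i, TopologicalSpace (X i)),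
    (∀ i, CoSober (X i) ∧ T1Space (X i) ∧ Countable (X i) ∧ ∀ A : Set (X i), IsCompact A) ∧
    ¬ CoSober (∀ i, X i) :=
  Pool.Agent.X200.CoSober.main

end Pool.Agent.Results.MP_8d849c_gt.ProductNotCoSober
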